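import Pool.Agent.Helper60_ZMad.Coideal

/-!
# The complement of the coideal is analytic, and the main theorem
-/

set_option autoImplicit false

namespace Pool.Agent.Helper60.ZMad

open Filter Topology MeasureTheory

variable {𝒜 : Set (Set ℕ)}

/-- The subset of `ℕ` with characteristic function `x`. -/
def toSet (x : ℕ → Bool) : Set ℕ := {n : ℕ | x n = true}

theorem exists_toSet (A : Set ℕ) : ∃ x : ℕ → Bool, toSet x = A := by
  classical
  refine ⟨fun n => decide (n ∈ A), ?_⟩
  ext n
  simp [toSet]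

theorem mu_eq_sum (m : ℕ) (X : Set ℕ) [DecidablePred (· ∈ X)] :
    mu m X = (∑ n ∈ Finset.Ico (2 ^ m) (2 ^ (m + 1)), if n ∈ X then (1 : ℝ) else 0) / 2 ^ m := by
  unfold mu
  congr 1
  rw [Finset.card_filter]
  push_cast
  congr!

theorem continuous_mu {k : ℕ} (φ : (ℕ → ℕ) → (ℕ → Bool)) (hφ : Continuous φ) (m : ℕ) :
    Continuous fun p : (ℕ → Bool) × (Fin k → ℕ → ℕ) =>
      mu m (⋃ i, toSet (φ (p.2 i)))ᶜ := by
  classical
  simp_rw [mu_eq_sum]
  apply Continuous.div_const
  apply continuous_finsetSum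
  intro n _
  have h1 : Continuous fun p : (ℕ → Bool) × (Fin k → ℕ → ℕ) => fun i : Fin k => φ (p.2 i) n := by
    apply continuous_pi
    intro i
    have h2 : Continuous fun p : (ℕ → Bool) × (Fin k → ℕ → ℕ) => p.2 i :=
      (continuous_apply i).comp continuous_snd
    exact (continuous_apply n).comp (hφ.comp h2)
  have h3 : Continuous fun b : Fin k → Bool =>
      if (∀ i, b i ≠ true) then (1 : ℝ) else 0 := continuous_of_discreteTopology
  have h4 := h3.comp h1
  convert h4 using 2 with p
  simp only [Function.comp, toSet, Set.mem_compl_iff, Set.mem_iUnion, Set.mem_ofPred_eq,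
    not_exists]

theorem polish_aux (k : ℕ) : PolishSpace ((ℕ → Bool) × (Fin k → ℕ → ℕ)) := by
  have h1 : TopologicalSpace.IsCompletelyMetrizableSpace (ℕ → Bool) := inferInstance
  have h2 : TopologicalSpace.IsCompletelyMetrizableSpace (Fin k → ℕ → ℕ) := inferInstance
  have h3 : SecondCountableTopology (ℕ → Bool) := inferInstance
  have h4 : SecondCountableTopology (Fin k → ℕ → ℕ) := inferInstance
  have h5 : SecondCountableTopology ((ℕ → Bool) × (Fin k → ℕ → ℕ)) := inferInstance
  have h6 : TopologicalSpace.SeparableSpace ((ℕ → Bool) × (Fin k → ℕ → ℕ)) := inferInstance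
  have h7 : TopologicalSpace.IsCompletelyMetrizableSpace ((ℕ → Bool) × (Fin k → ℕ → ℕ)) :=
    inferInstance
  exact instPolishSpaceOfSeparableSpaceOfIsCompletelyMetrizableSpace

theorem analytic_compl (han : IsAnalyticFamily 𝒜) (hne : 𝒜.Nonempty) (c : ℝ) :
    AnalyticSet {x : ℕ → Bool | toSet x ∉ HH 𝒜 c} := by
  classical
  -- a parametrisation of the family
  obtain ⟨φ, hφ, hφr⟩ : ∃ φ : (ℕ → ℕ) → (ℕ → Bool), Continuous φ ∧
      Set.range φ = {x : ℕ → Bool | toSet x ∈ 𝒜} := by
    have h : AnalyticSet {x : ℕ → Bool | toSet x ∈ 𝒜} := han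
    rw [AnalyticSet] at h
    rcases h with h | h
    · obtain ⟨A, hA⟩ := hne
      obtain ⟨x, rfl⟩ := exists_toSet A
      have : x ∈ {x : ℕ → Bool | toSet x ∈ 𝒜} := hA
      rw [h] at this
      exact absurd this (Set.notMem_empty x)
    · exact h
  have hφ𝒜 : ∀ y, toSet (φ y) ∈ 𝒜 := by
    intro y
    have : φ y ∈ Set.range φ := ⟨y, rfl⟩
    rw [hφr] at this
    exact this
  have hφs : ∀ A ∈ 𝒜, ∃ y, toSet (φ y) = A := by
    intro A hA
    obtain ⟨x, rfl⟩ := exists_toSet A
    have : x ∈ {x : ℕ → Bool | toSet x ∈ 𝒜} := hA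
    rw [← hφr] at this
    obtain ⟨y, rfl⟩ := this
    exact ⟨y, rfl⟩
  have heq : {x : ℕ → Bool | toSet x ∉ HH 𝒜 c} =
      ⋃ (k : ℕ) (q : {q : ℚ // (q : ℝ) < c}) (N : ℕ), Prod.fst ''
        {p : (ℕ → Bool) × (Fin k → ℕ → ℕ) | ∀ m, N ≤ m → p.1 m = true →
          mu m (⋃ i, toSet (φ (p.2 i)))ᶜ ≤ ((q : ℚ) : ℝ)} := by
    ext x
    simp only [Set.mem_ofPred_eq, Set.mem_iUnion, Set.mem_image, Prod.exists,
      exists_and_right, exists_eq_right]
    constructor
    · intro h
      simp only [HH, Set.mem_ofPred_eq, not_forall, Set.not_infinite] at h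
      obtain ⟨F, hF, hF𝒜, q, hq, hfin⟩ := h
      obtain ⟨q', hq1, hq2⟩ := exists_rat_btwn hq
      obtain ⟨N, hN⟩ := hfin.bddAbove
      obtain ⟨k, g, hg⟩ : ∃ (k : ℕ) (g : Fin k → Set ℕ), Set.range g = F := by
        refine ⟨hF.toFinset.card, fun i => (hF.toFinset.equivFin.symm i : Set ℕ), ?_⟩
        ext A
        constructor
        · rintro ⟨i, rfl⟩
          exact hF.mem_toFinset.1 (hF.toFinset.equivFin.symm i).2
        · intro hA
          exact ⟨hF.toFinset.equivFin ⟨A, hF.mem_toFinset.2 hA⟩, by simp⟩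
      have hgA : ∀ i, ∃ y, toSet (φ y) = g i := fun i => hφs _ (hF𝒜 (hg ▸ ⟨i, rfl⟩))
      choose y hy using hgA
      refine ⟨k, ⟨q', hq2⟩, N + 1, y, ?_⟩
      intro m hm hxm
      have hU : (⋃ i, toSet (φ (y i))) = ⋃₀ F := by
        rw [← hg, Set.sUnion_range]
        simp_rw [hy]
      rw [hU]
      by_contra hlt
      push Not at hlt
      have : m ∈ {m | m ∈ toSet x ∧ q < mu m (⋃₀ F)ᶜ} := ⟨hxm, hq1.trans hlt⟩
      have := hN this
      omega
    · rintro ⟨k, ⟨q, hq⟩, N, y, hy⟩ hH
      have hU : (⋃ i, toSet (φ (y i))) = ⋃₀ (Set.range fun i => toSet (φ (y i))) := by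
        rw [Set.sUnion_range]
      apply hH (Set.range fun i => toSet (φ (y i))) (Set.finite_range _)
        (by rintro _ ⟨i, rfl⟩; exact hφ𝒜 _) q hq
      apply (Set.finite_Iio N).subset
      rintro m ⟨hm1, hm2⟩
      rw [← hU] at hm2
      by_contra hmN
      have hmN' : N ≤ m := not_lt.1 hmN
      exact absurd (hy m hmN' hm1) (not_le.2 hm2)
  rw [heq]
  apply AnalyticSet.iUnion
  intro k
  apply AnalyticSet.iUnion
  intro q
  apply AnalyticSet.iUnion
  intro N
  apply AnalyticSet.image_of_continuous _ continuous_fst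
  have := polish_aux k
  apply IsClosed.analyticSet
  have : {p : (ℕ → Bool) × (Fin k → ℕ → ℕ) | ∀ m, N ≤ m → p.1 m = true →
      mu m (⋃ i, toSet (φ (p.2 i)))ᶜ ≤ ((q : ℚ) : ℝ)} =
      ⋂ (m : ℕ) (_ : N ≤ m), ({p | p.1 m = false} ∪
        {p | mu m (⋃ i, toSet (φ (p.2 i)))ᶜ ≤ ((q : ℚ) : ℝ)}) := by
    ext p
    simp only [Set.mem_ofPred_eq, Set.mem_iInter, Set.mem_union]
    constructor
    · intro h m hm
      cases hp : p.1 m with
      | false => exact Or.inl rfl
      | true => exact Or.inr (h m hm hp)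
    · intro h m hm hpm
      rcases h m hm with h | h
      · rw [hpm] at h
        exact absurd h (by decide)
      · exact h
  rw [this]
  apply isClosed_iInter
  intro m
  apply isClosed_iInter
  intro _
  apply IsClosed.union
  · have h1 : Continuous fun p : (ℕ → Bool) × (Fin k → ℕ → ℕ) => p.1 m :=
      (continuous_apply m).comp continuous_fst
    exact isClosed_eq h1 continuous_const
  · exact isClosed_le (continuous_mu φ hφ m) continuous_const

/-- **Main theorem**: an analytic `Z₀`-MAD family is countable. -/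
theorem countable_of_analytic_mad (h𝒜 : IsZ0Mad 𝒜) (han : IsAnalyticFamily 𝒜) :
    𝒜.Countable := by
  classical
  rcases 𝒜.eq_empty_or_nonempty with rfl | hne
  · exact Set.countable_empty
  -- the whole set of blocks is not in any of the coideals
  have hkey : ∀ c : ℝ, 0 < c → (Set.univ : Set ℕ) ∉ HH 𝒜 c := by
    intro c hc huniv
    have hsel := selective_HH h𝒜 hc
    have hA := analytic_compl han hne c
    rw [AnalyticSet] at hA
    rcases hA with hA | ⟨g, hg, hgr⟩
    · -- the empty set is not in the coideal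
      have h1 : (fun _ => false : ℕ → Bool) ∈ {x : ℕ → Bool | toSet x ∉ HH 𝒜 c} := by
        intro h
        have := hsel.inf h
        apply this
        have : toSet (fun _ => false) = ∅ := by
          ext n
          simp [toSet]
        rw [this]
        exact Set.finite_empty
      rw [hA] at h1
      exact absurd h1 (Set.notMem_empty _)
    · obtain ⟨C, hC, _, hCY⟩ := hsel.main (fun y => toSet (g y))
        (by
          intro y n
          have h1 : Continuous fun y => g y n := (continuous_apply n).comp hg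
          have h2 : {y' | g y' n = g y n} ∈ 𝓝 y :=
            (isOpen_discrete {g y n}).preimage h1 |>.mem_nhds rfl
          rw [(PiNat.isTopologicalBasis_cylinders (fun _ : ℕ => ℕ)).mem_nhds_iff] at h2
          obtain ⟨t, ⟨x, k, rfl⟩, hyt, ht⟩ := h2
          refine ⟨k, fun y' hy' => ?_⟩
          have h3 : y' ∈ PiNat.cylinder x k := by
            rw [PiNat.mem_cylinder_iff] at hyt ⊢
            intro i hi
            rw [hy' i hi, hyt i hi]
          have h4 : g y' n = g y n := ht h3
          change g y' n = true ↔ g y n = true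
          rw [h4])
        (by
          intro X
          constructor
          · intro hX
            obtain ⟨x, rfl⟩ := exists_toSet X
            have : x ∈ Set.range g := by
              rw [hgr]
              exact hX
            obtain ⟨y, rfl⟩ := this
            exact ⟨y, rfl⟩
          · rintro ⟨y, rfl⟩
            have : g y ∈ Set.range g := ⟨y, rfl⟩
            rw [hgr] at this
            exact this) huniv
      obtain ⟨E, hEC, hE, V, hV, hV𝒜, hVc⟩ := exists_cover h𝒜 (hsel.inf hC) (half_pos hc)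
      have h1 := hCY E hEC hE V hV hV𝒜 (c / 2) (by linarith)
      apply h1
      convert Set.finite_empty
      ext m
      simp only [Set.mem_ofPred_eq, Set.mem_empty_iff_false, iff_false, not_and, not_lt]
      intro hm
      have := hVc m hm
      rw [mu_compl]
      linarith
  -- conclusion
  have hex : ∀ j : ℕ, ∃ F : Set (Set ℕ), F.Finite ∧ F ⊆ 𝒜 ∧
      ∃ N : ℕ, ∀ m, N ≤ m → mu m (⋃₀ F)ᶜ ≤ 1 / ((j : ℝ) + 1) := by
    intro j
    have h := hkey (1 / ((j : ℝ) + 1)) (by positivity)
    simp only [HH, Set.mem_ofPred_eq, not_forall, Set.not_infinite, Set.mem_univ, true_and] at h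
    obtain ⟨F, hF, hF𝒜, q, hq, hfin⟩ := h
    obtain ⟨N, hN⟩ := hfin.bddAbove
    refine ⟨F, hF, hF𝒜, N + 1, fun m hm => ?_⟩
    by_contra hlt
    push Not at hlt
    have := hN (show m ∈ {m | q < mu m (⋃₀ F)ᶜ} from hq.trans hlt)
    omega
  choose F hF hF𝒜 N hN using hex
  refine (Set.countable_iUnion fun j => (hF j).countable).mono ?_
  intro A hA
  by_contra hcon
  simp only [Set.mem_iUnion, not_exists] at hcon
  apply h𝒜.1 A hA
  rw [mem_Z0_iff, Metric.tendsto_atTop]
  intro ε hε
  obtain ⟨j, hj⟩ := exists_nat_one_div_lt (half_pos hε)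
  have hz := inter_sUnion_mem_Z0 h𝒜 hA (hF j) (hF𝒜 j) (hcon j)
  rw [mem_Z0_iff] at hz
  have hev := hz.eventually (gt_mem_nhds (half_pos hε))
  rw [eventually_atTop] at hev
  obtain ⟨M, hM⟩ := hev
  refine ⟨max M (N j), fun m hm => ?_⟩
  rw [Real.dist_eq, sub_zero, abs_of_nonneg (mu_nonneg _ _)]
  have h1 := hM m ((le_max_left _ _).trans hm)
  have h2 := hN j m ((le_max_right _ _).trans hm)
  have h3 : mu m A ≤ mu m (⋃₀ (F j))ᶜ + mu m (A ∩ ⋃₀ (F j)) := by
    refine le_trans (mu_mono _ ?_) (mu_union_le _ _ _)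
    intro x hx _ _
    by_cases hxF : x ∈ ⋃₀ (F j)
    · exact Or.inr ⟨hx, hxF⟩
    · exact Or.inl hxF
  linarith

end Pool.Agent.Helper60.ZMad
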