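import Pool.Agent.Helper60_ZMad.Statement

/-!
# Block description of the density zero ideal
-/

set_option autoImplicit false

namespace Pool.Agent.Helper60.ZMad

open Filter Topology

open Classical in
/-- The normalised counting measure of `X` in the block `[2 ^ m, 2 ^ (m + 1))`. -/
noncomputable def mu (m : ℕ) (X : Set ℕ) : ℝ :=
  (((Finset.Ico (2 ^ m) (2 ^ (m + 1))).filter (fun n => n ∈ X)).card : ℝ) / 2 ^ m

theorem mu_nonneg (m : ℕ) (X : Set ℕ) : 0 ≤ mu m X := by unfold mu; positivity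

theorem mu_mono (m : ℕ) {X Y : Set ℕ} (h : ∀ n ∈ X, 2 ^ m ≤ n → n < 2 ^ (m + 1) → n ∈ Y) :
    mu m X ≤ mu m Y := by
  classical
  unfold mu
  apply div_le_div_of_nonneg_right _ (by positivity)
  have : (Finset.Ico (2 ^ m) (2 ^ (m + 1))).filter (fun n => n ∈ X) ⊆
      (Finset.Ico (2 ^ m) (2 ^ (m + 1))).filter (fun n => n ∈ Y) := by
    intro n hn
    rw [Finset.mem_filter, Finset.mem_Ico] at hn ⊢
    exact ⟨hn.1, h n hn.2 hn.1.1 hn.1.2⟩
  exact_mod_cast Finset.card_le_card this

theorem mu_congr (m : ℕ) {X Y : Set ℕ} (h : ∀ n, 2 ^ m ≤ n → n < 2 ^ (m + 1) → (n ∈ X ↔ n ∈ Y)) :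
    mu m X = mu m Y :=
  le_antisymm (mu_mono m fun n hn h1 h2 => (h n h1 h2).1 hn)
    (mu_mono m fun n hn h1 h2 => (h n h1 h2).2 hn)

theorem mu_union_add_inter (m : ℕ) (X Y : Set ℕ) :
    mu m (X ∪ Y) + mu m (X ∩ Y) = mu m X + mu m Y := by
  classical
  unfold mu
  rw [← add_div, ← add_div]
  congr 1
  have h1 : (Finset.Ico (2 ^ m) (2 ^ (m + 1))).filter (fun n => n ∈ X ∪ Y) =
      (Finset.Ico (2 ^ m) (2 ^ (m + 1))).filter (fun n => n ∈ X) ∪
      (Finset.Ico (2 ^ m) (2 ^ (m + 1))).filter (fun n => n ∈ Y) := by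
    ext n; simp only [Finset.mem_filter, Finset.mem_union, Set.mem_union]; tauto
  have h2 : (Finset.Ico (2 ^ m) (2 ^ (m + 1))).filter (fun n => n ∈ X ∩ Y) =
      (Finset.Ico (2 ^ m) (2 ^ (m + 1))).filter (fun n => n ∈ X) ∩
      (Finset.Ico (2 ^ m) (2 ^ (m + 1))).filter (fun n => n ∈ Y) := by
    ext n; simp only [Finset.mem_filter, Finset.mem_inter, Set.mem_inter_iff]; tauto
  have h3 := Finset.card_union_add_card_inter
    ((Finset.Ico (2 ^ m) (2 ^ (m + 1))).filter (fun n => n ∈ X))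
    ((Finset.Ico (2 ^ m) (2 ^ (m + 1))).filter (fun n => n ∈ Y))
  rw [← h1, ← h2] at h3
  convert congrArg (Nat.cast (R := ℝ)) h3 using 1
  · push_cast
    congr!
  · push_cast
    congr!

theorem mu_empty (m : ℕ) : mu m ∅ = 0 := by simp [mu]

theorem mu_univ (m : ℕ) : mu m Set.univ = 1 := by
  unfold mu
  simp only [Set.mem_univ, Finset.filter_true, Nat.card_Ico]
  have : (2 ^ (m + 1) - 2 ^ m : ℕ) = 2 ^ m := by
    rw [pow_succ]; omega
  rw [this]
  push_cast
  field_simp

theorem mu_union_le (m : ℕ) (X Y : Set ℕ) : mu m (X ∪ Y) ≤ mu m X + mu m Y := by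
  have := mu_union_add_inter m X Y
  have := mu_nonneg m (X ∩ Y)
  linarith

theorem mu_le_one (m : ℕ) (X : Set ℕ) : mu m X ≤ 1 := by
  rw [← mu_univ m]
  exact mu_mono m fun _ _ _ _ => Set.mem_univ _

theorem mu_compl (m : ℕ) (X : Set ℕ) : mu m Xᶜ = 1 - mu m X := by
  have h := mu_union_add_inter m X Xᶜ
  rw [Set.union_compl_self, Set.inter_compl_self, mu_univ, mu_empty] at h
  linarith

theorem ncard_eq (A : Set ℕ) (n : ℕ) [DecidablePred (· ∈ A)] :
    (A ∩ Set.Iio n).ncard = ((Finset.range n).filter (fun k => k ∈ A)).card := by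
  rw [← Set.ncard_coe_finset]
  congr 1
  ext k
  simp [and_comm]

/-- Block description of `Z₀`. -/
theorem mem_Z0_iff (A : Set ℕ) : A ∈ Z0 ↔ Tendsto (fun m => mu m A) atTop (𝓝 0) := by
  classical
  constructor
  · intro h
    have h' : Tendsto (fun n : ℕ => ((A ∩ Set.Iio n).ncard : ℝ) / (n : ℝ)) atTop (𝓝 0) := h
    have h2 : Tendsto (fun m : ℕ => 2 ^ (m + 1)) atTop (atTop : Filter ℕ) :=
      (tendsto_pow_atTop_atTop_of_one_lt (by norm_num : 1 < 2)).comp (tendsto_add_atTop_nat 1)
    have h3 := (h'.comp h2).const_mul 2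
    rw [mul_zero] at h3
    refine squeeze_zero (fun m => mu_nonneg m A) (fun m => ?_) h3
    simp only [Function.comp]
    rw [ncard_eq]
    unfold mu
    have hsub : ((Finset.Ico (2 ^ m) (2 ^ (m + 1))).filter (fun n => n ∈ A)).card ≤
        ((Finset.range (2 ^ (m + 1))).filter (fun k => k ∈ A)).card := by
      apply Finset.card_le_card
      intro n hn
      simp only [Finset.mem_filter, Finset.mem_Ico, Finset.mem_range] at hn ⊢
      exact ⟨hn.1.2, hn.2⟩
    have hsub' : (((Finset.Ico (2 ^ m) (2 ^ (m + 1))).filter (fun n => n ∈ A)).card : ℝ) ≤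
        (((Finset.range (2 ^ (m + 1))).filter (fun k => k ∈ A)).card : ℝ) := by
      exact_mod_cast hsub
    have hp : (0 : ℝ) < 2 ^ m := by positivity
    have hp2 : (2 : ℝ) ^ (m + 1) = 2 ^ m * 2 := pow_succ _ _
    push_cast
    rw [div_le_iff₀ hp, hp2]
    have e : 2 * ((((Finset.range (2 ^ (m + 1))).filter (fun k => k ∈ A)).card : ℝ) / (2 ^ m * 2)) *
        2 ^ m = (((Finset.range (2 ^ (m + 1))).filter (fun k => k ∈ A)).card : ℝ) := by
      field_simp
    rw [e]
    convert hsub' using 1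
  · intro h
    change Tendsto (fun n : ℕ => ((A ∩ Set.Iio n).ncard : ℝ) / (n : ℝ)) atTop (𝓝 0)
    rw [Metric.tendsto_atTop] at h ⊢
    intro ε hε
    obtain ⟨M, hM⟩ := h (ε / 4) (by positivity)
    -- count up to a power of two
    have hcount : ∀ k, M ≤ k → (((Finset.range (2 ^ k)).filter (fun n => n ∈ A)).card : ℝ) ≤
        2 ^ M + ε / 4 * 2 ^ k := by
      intro k hk
      induction k, hk using Nat.le_induction with
      | base =>
        have h1 : ((Finset.range (2 ^ M)).filter (fun n => n ∈ A)).card ≤ 2 ^ M := by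
          calc _ ≤ (Finset.range (2 ^ M)).card := Finset.card_filter_le _ _
            _ = 2 ^ M := Finset.card_range _
        have h2 : (((Finset.range (2 ^ M)).filter (fun n => n ∈ A)).card : ℝ) ≤ 2 ^ M := by
          exact_mod_cast h1
        have : (0 : ℝ) ≤ ε / 4 * 2 ^ M := by positivity
        linarith
      | succ k hk ih =>
        have h1 := hM k hk
        rw [Real.dist_eq, sub_zero, abs_of_nonneg (mu_nonneg k A)] at h1
        have h2 : (((Finset.Ico (2 ^ k) (2 ^ (k + 1))).filter (fun n => n ∈ A)).card : ℝ) ≤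
            ε / 4 * 2 ^ k := by
          have h3 : mu k A = (((Finset.Ico (2 ^ k) (2 ^ (k + 1))).filter
            (fun n => n ∈ A)).card : ℝ) / 2 ^ k := by
            unfold mu
            congr!
          rw [h3, div_lt_iff₀ (by positivity)] at h1
          exact h1.le
        have h3 : (Finset.range (2 ^ (k + 1))).filter (fun n => n ∈ A) ⊆
            (Finset.range (2 ^ k)).filter (fun n => n ∈ A) ∪
            (Finset.Ico (2 ^ k) (2 ^ (k + 1))).filter (fun n => n ∈ A) := by
          intro n hn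
          simp only [Finset.mem_filter, Finset.mem_range, Finset.mem_union, Finset.mem_Ico] at hn ⊢
          rcases lt_or_ge n (2 ^ k) with h | h
          · exact Or.inl ⟨h, hn.2⟩
          · exact Or.inr ⟨⟨h, hn.1⟩, hn.2⟩
        have h4 := (Finset.card_le_card h3).trans (Finset.card_union_le _ _)
        have h5 : (((Finset.range (2 ^ (k + 1))).filter (fun n => n ∈ A)).card : ℝ) ≤
            (((Finset.range (2 ^ k)).filter (fun n => n ∈ A)).card : ℝ) +
            (((Finset.Ico (2 ^ k) (2 ^ (k + 1))).filter (fun n => n ∈ A)).card : ℝ) := by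
          exact_mod_cast h4
        rw [pow_succ (2 : ℝ) k]
        linarith
    obtain ⟨N, hN⟩ := exists_nat_gt (2 ^ M * 4 / ε)
    refine ⟨max N (2 ^ M), fun n hn => ?_⟩
    rw [Real.dist_eq, sub_zero, abs_of_nonneg (by positivity), ncard_eq]
    have hnN : N ≤ n := (le_max_left _ _).trans hn
    have hnM : 2 ^ M ≤ n := (le_max_right _ _).trans hn
    have hn0 : n ≠ 0 := by
      have : 0 < 2 ^ M := by positivity
      omega
    set k := Nat.log 2 n with hk
    have hk1 : 2 ^ k ≤ n := Nat.pow_log_le_self 2 hn0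
    have hk2 : n < 2 ^ (k + 1) := Nat.lt_pow_succ_log_self (by norm_num) n
    have hMk : M ≤ k := Nat.le_log_of_pow_le (by norm_num) hnM
    have h1 := hcount (k + 1) (by omega)
    have h2 : ((Finset.range n).filter (fun n => n ∈ A)).card ≤
        ((Finset.range (2 ^ (k + 1))).filter (fun n => n ∈ A)).card := by
      apply Finset.card_le_card
      intro x hx
      simp only [Finset.mem_filter, Finset.mem_range] at hx ⊢
      exact ⟨hx.1.trans hk2, hx.2⟩
    have h3 : (((Finset.range n).filter (fun n => n ∈ A)).card : ℝ) ≤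
        (((Finset.range (2 ^ (k + 1))).filter (fun n => n ∈ A)).card : ℝ) := by exact_mod_cast h2
    have hnpos : (0 : ℝ) < n := by exact_mod_cast Nat.pos_of_ne_zero hn0
    rw [div_lt_iff₀ hnpos]
    have h4 : (2 : ℝ) ^ k ≤ n := by exact_mod_cast hk1
    have h5 : (2 : ℝ) ^ M * 4 / ε < n := hN.trans_le (by exact_mod_cast hnN)
    rw [div_lt_iff₀ hε] at h5
    rw [pow_succ (2 : ℝ) k] at h1
    nlinarith

end Pool.Agent.Helper60.ZMad
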