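import Mathlib

/-!
# Selective coideals on `ℕ` and analytic ideals

If `H` is a selective coideal on `ℕ` (a happy family in the sense of Mathias) whose complement is
analytic, then some member of `H` has all its infinite subsets in `H`. We give an elementary
self-contained proof.
-/

set_option autoImplicit false

namespace Pool.Agent.Helper60.ZMad

/-- `Nb a C` is the set of all infinite `X` with initial segment `a` and `X \ a ⊆ C`. -/
def Nb (a : Finset ℕ) (C : Set ℕ) : Set (Set ℕ) :=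
  {X | X.Infinite ∧ (∀ x ∈ a, x ∈ X) ∧ ∀ x ∈ X, x ∉ a → x ∈ C ∧ ∀ y ∈ a, y < x}

/-- A selective coideal. -/
structure Selective (H : Set (Set ℕ)) : Prop where
  up : ∀ {C D : Set ℕ}, C ∈ H → C ⊆ D → D ∈ H
  split : ∀ {C D : Set ℕ}, C ∪ D ∈ H → C ∈ H ∨ D ∈ H
  inf : ∀ {C : Set ℕ}, C ∈ H → C.Infinite
  diag : ∀ C : ℕ → Set ℕ, (∀ n, C n ∈ H) → (∀ n, C (n + 1) ⊆ C n) →
    ∃ D ∈ H, D ⊆ C 0 ∧ ∀ n ∈ D, ∀ m ∈ D, n < m → m ∈ C n

variable {H : Set (Set ℕ)}

theorem Nb_mono {a : Finset ℕ} {C C' : Set ℕ} (h : ∀ x ∈ C', (∀ y ∈ a, y < x) → x ∈ C) :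
    Nb a C' ⊆ Nb a C := by
  rintro X ⟨h1, h2, h3⟩
  refine ⟨h1, h2, fun x hx hxa => ?_⟩
  obtain ⟨h4, h5⟩ := h3 x hx hxa
  exact ⟨h x h4 h5, h5⟩

/-- The part of a member of `H` above a finite set is in `H`. -/
theorem Selective.above (hH : Selective H) {C : Set ℕ} (hC : C ∈ H) (a : Finset ℕ) :
    {x ∈ C | ∀ y ∈ a, y < x} ∈ H := by
  have h1 : {x ∈ C | ∀ y ∈ a, y < x} ∪ {x ∈ C | ¬ ∀ y ∈ a, y < x} = C := by
    ext x
    simp only [Set.mem_union, Set.mem_ofPred_eq]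
    tauto
  have h2 : {x ∈ C | ∀ y ∈ a, y < x} ∪ {x ∈ C | ¬ ∀ y ∈ a, y < x} ∈ H := by rwa [h1]
  rcases hH.split h2 with h | h
  · exact h
  · exfalso
    apply hH.inf h
    apply (Set.finite_Iic (a.sup id)).subset
    rintro x ⟨_, hx⟩
    push Not at hx
    obtain ⟨y, hy, hyx⟩ := hx
    exact hyx.trans (Finset.le_sup (f := id) hy)

/-- The diagonalisation lemma. -/
theorem Selective.diag_lemma (hH : Selective H) {C₀ : Set ℕ} (hC₀ : C₀ ∈ H)
    (P : Finset ℕ → ℕ → Set ℕ → Prop)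
    (mono : ∀ a k C C', C' ∈ H → (∀ x ∈ C', (∀ y ∈ a, y < x) → x ∈ C) → P a k C → P a k C')
    (dense : ∀ a k C, C ∈ H → C ⊆ C₀ → ∃ C' ∈ H, C' ⊆ C ∧ P a k C') :
    ∃ D ∈ H, D ⊆ C₀ ∧ ∀ a : Finset ℕ, (∀ x ∈ a, x ∈ D) → ∀ k ≤ a.sup id, P a k D := by
  classical
  have fin : ∀ S : Finset (Finset ℕ × ℕ), ∀ C ∈ H, C ⊆ C₀ →
      ∃ C' ∈ H, C' ⊆ C ∧ ∀ p ∈ S, P p.1 p.2 C' := by
    intro S
    induction S using Finset.induction_on with
    | empty => exact fun C hC _ => ⟨C, hC, subset_rfl, by simp⟩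
    | insert p S _ ih =>
      intro C hC hCC
      obtain ⟨C₁, hC₁, hC₁C, hP₁⟩ := ih C hC hCC
      obtain ⟨C₂, hC₂, hC₂C, hP₂⟩ := dense p.1 p.2 C₁ hC₁ (hC₁C.trans hCC)
      refine ⟨C₂, hC₂, hC₂C.trans hC₁C, ?_⟩
      intro q hq
      rcases Finset.mem_insert.1 hq with rfl | hq
      · exact hP₂
      · exact mono _ _ _ _ hC₂ (fun x hx _ => hC₂C hx) (hP₁ q hq)
  let S : ℕ → Finset (Finset ℕ × ℕ) := fun n =>
    (Finset.range (n + 1)).powerset ×ˢ Finset.range (n + 1)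
  have step : ∀ (n : ℕ) (C : {C : Set ℕ // C ∈ H ∧ C ⊆ C₀}),
      ∃ C' : {C : Set ℕ // C ∈ H ∧ C ⊆ C₀}, C'.1 ⊆ C.1 ∧ ∀ p ∈ S n, P p.1 p.2 C'.1 := by
    rintro n ⟨C, hC, hCC⟩
    obtain ⟨C', h1, h2, h3⟩ := fin (S n) C hC hCC
    exact ⟨⟨C', h1, h2.trans hCC⟩, h2, h3⟩
  choose g hg1 hg2 using step
  let s : ℕ → {C : Set ℕ // C ∈ H ∧ C ⊆ C₀} := fun n =>
    Nat.rec (g 0 ⟨C₀, hC₀, subset_rfl⟩) (fun n C => g (n + 1) C) n
  have hs : ∀ n, ∀ p ∈ S n, P p.1 p.2 (s n).1 := by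
    intro n
    cases n with
    | zero => exact hg2 0 _
    | succ n => exact hg2 (n + 1) _
  obtain ⟨D, hD, hD0, hDd⟩ := hH.diag (fun n => (s n).1) (fun n => (s n).2.1)
    (fun n => hg1 (n + 1) (s n))
  refine ⟨D, hD, hD0.trans (s 0).2.2, ?_⟩
  intro a ha k hk
  have hmem : (a, k) ∈ S (a.sup id) := by
    simp only [S, Finset.mem_product, Finset.mem_powerset, Finset.mem_range]
    refine ⟨fun x hx => Finset.mem_range.2 (Nat.lt_succ_of_le (Finset.le_sup (f := id) hx)), ?_⟩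
    omega
  refine mono a k _ D hD ?_ (hs _ _ hmem)
  intro x hx hxa
  rcases a.eq_empty_or_nonempty with rfl | hne
  · exact hD0 hx
  · have hmax : a.sup id ∈ a := by
      obtain ⟨y, hy, hy'⟩ := Finset.exists_mem_eq_sup a hne id
      rw [hy']
      exact hy
    exact hDd _ (ha _ hmax) x hx (hxa _ hmax)

/-- The next element. -/
theorem Nb_next {a : Finset ℕ} {C X : Set ℕ} (hX : X ∈ Nb a C) :
    ∃ m ∈ C, (∀ y ∈ a, y < m) ∧ m ∈ X ∧ X ∈ Nb (insert m a) C := by
  classical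
  obtain ⟨h1, h2, h3⟩ := hX
  have hne : ∃ x, x ∈ X ∧ x ∉ a := by
    by_contra hcon
    push Not at hcon
    exact h1 (a.finite_toSet.subset hcon)
  set m := Nat.find hne with hm
  obtain ⟨hmX, hma⟩ := Nat.find_spec hne
  obtain ⟨hmC, hlt⟩ := h3 m hmX hma
  refine ⟨m, hmC, hlt, hmX, h1, ?_, ?_⟩
  · intro x hx
    rcases Finset.mem_insert.1 hx with rfl | hx
    · exact hmX
    · exact h2 x hx
  · intro x hx hxa
    rw [Finset.mem_insert, not_or] at hxa
    obtain ⟨h4, h5⟩ := h3 x hx hxa.2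
    refine ⟨h4, ?_⟩
    intro y hy
    rcases Finset.mem_insert.1 hy with rfl | hy
    · exact lt_of_le_of_ne (Nat.find_min' hne ⟨hx, hxa.2⟩) (Ne.symm hxa.1)
    · exact h5 y hy

/-- Open sets are Ramsey with respect to a selective coideal. -/
theorem Selective.galvin (hH : Selective H) {C₀ : Set ℕ} (hC₀ : C₀ ∈ H) (a₀ : Finset ℕ)
    (O : Set (Set ℕ)) (hO : ∀ X ∈ O, X.Infinite → ∃ b, X ∈ Nb b Set.univ ∧ Nb b Set.univ ⊆ O) :
    ∃ C ∈ H, C ⊆ C₀ ∧ (Nb a₀ C ⊆ O ∨ ∀ X ∈ Nb a₀ C, X ∉ O) := by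
  classical
  -- rejection
  let Rej : Finset ℕ → Set ℕ → Prop := fun a C => ∀ C' ∈ H, C' ⊆ C → ¬ Nb a C' ⊆ O
  have hRejmono : ∀ a C C', (∀ x ∈ C', (∀ y ∈ a, y < x) → x ∈ C) → Rej a C → Rej a C' := by
    intro a C C' h hR C'' hC'' hsub hacc
    refine hR {x ∈ C'' | ∀ y ∈ a, y < x} (hH.above hC'' a) ?_ ?_
    · rintro x ⟨hx, hxa⟩
      exact h x (hsub hx) hxa
    · exact (Nb_mono (fun x hx _ => hx.1)).trans hacc
  obtain ⟨D, hD, hDC, hdec⟩ := hH.diag_lemma (hH.above hC₀ a₀)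
    (fun b _ C => Nb (a₀ ∪ b) C ⊆ O ∨ Rej (a₀ ∪ b) C)
    (by
      rintro b _ C C' _ h (hacc | hrej)
      · left
        exact (Nb_mono (fun x hx hxa => h x hx
          (fun y hy => hxa y (Finset.mem_union_right _ hy)))).trans hacc
      · right
        exact hRejmono _ _ _ (fun x hx hxa => h x hx
          (fun y hy => hxa y (Finset.mem_union_right _ hy))) hrej)
    (by
      intro b _ C hC _
      by_cases h : ∃ C' ∈ H, C' ⊆ C ∧ Nb (a₀ ∪ b) C' ⊆ O
      · obtain ⟨C', h1, h2, h3⟩ := h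
        exact ⟨C', h1, h2, Or.inl h3⟩
      · push Not at h
        exact ⟨C, hC, subset_rfl, Or.inr h⟩)
  have hD₀ : D ⊆ C₀ := fun x hx => (hDC hx).1
  have hDa : ∀ x ∈ D, ∀ y ∈ a₀, y < x := fun x hx => (hDC hx).2
  have h0 := hdec ∅ (by simp) 0 (by simp)
  rw [Finset.union_empty] at h0
  rcases h0 with h0 | h0
  · exact ⟨D, hD, hD₀, Or.inl h0⟩
  -- now `a₀` is rejected
  obtain ⟨D₁, hD₁, hD₁D, hprop⟩ := hH.diag_lemma hD
    (fun b _ C => (∀ x ∈ b, x ∈ D) → Rej (a₀ ∪ b) D →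
      ∀ m ∈ C, (∀ y ∈ b, y < m) → Rej (a₀ ∪ insert m b) D)
    (by
      intro b _ C C' _ h hP h1 h2 m hm hbm
      exact hP h1 h2 m (h m hm hbm) hbm)
    (by
      intro b _ C hC hCD
      by_cases hh : (∀ x ∈ b, x ∈ D) ∧ Rej (a₀ ∪ b) D
      · obtain ⟨hbD, hrej⟩ := hh
        have hun : {m ∈ C | (∀ y ∈ b, y < m) → Rej (a₀ ∪ insert m b) D} ∪
            {m ∈ C | ¬ ((∀ y ∈ b, y < m) → Rej (a₀ ∪ insert m b) D)} = C := by
          ext x
          simp only [Set.mem_union, Set.mem_ofPred_eq]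
          tauto
        rcases hH.split (by rw [hun]; exact hC) with h | h
        · exact ⟨_, h, fun x hx => hx.1, fun _ _ m hm hbm => hm.2 hbm⟩
        · exfalso
          refine hrej _ h (fun x hx => hCD hx.1) ?_
          intro X hX
          obtain ⟨m, hm, hlt, hmX, hX'⟩ := Nb_next hX
          obtain ⟨hmC, hmrej⟩ := hm
          push Not at hmrej
          obtain ⟨hbm, hnr⟩ := hmrej
          have hd := hdec (insert m b) (by
            intro x hx
            rcases Finset.mem_insert.1 hx with rfl | hx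
            · exact hCD hmC
            · exact hbD x hx) 0 (Nat.zero_le _)
          have hacc := hd.resolve_right hnr
          apply hacc
          rw [Finset.union_insert]
          exact Nb_mono (fun x hx _ => hCD hx.1) hX'
      · exact ⟨C, hC, subset_rfl, fun h1 h2 => absurd ⟨h1, h2⟩ hh⟩)
  have hall : ∀ b : Finset ℕ, (∀ x ∈ b, x ∈ D₁) → Rej (a₀ ∪ b) D := by
    intro b
    induction b using Finset.induction_on_max with
    | empty => intro _; rwa [Finset.union_empty]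
    | insert m b hlt ih =>
      intro hb
      have hb' : ∀ x ∈ b, x ∈ D₁ := fun x hx => hb x (Finset.mem_insert_of_mem hx)
      exact hprop b hb' 0 (Nat.zero_le _) (fun x hx => hD₁D (hb' x hx)) (ih hb') m
        (hb m (Finset.mem_insert_self _ _)) hlt
  refine ⟨D₁, hD₁, hD₁D.trans hD₀, Or.inr ?_⟩
  intro X hX hXO
  obtain ⟨s, hs, hsO⟩ := hO X hXO hX.1
  obtain ⟨h1, h2, h3⟩ := hX
  let b : Finset ℕ := (Finset.range (s.sup id + 1)).filter (fun y => y ∈ X ∧ y ∉ a₀)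
  have hb : ∀ x, x ∈ b ↔ x ≤ s.sup id ∧ x ∈ X ∧ x ∉ a₀ := by
    intro x
    simp only [b, Finset.mem_filter, Finset.mem_range]
    rw [Nat.lt_succ_iff]
  have hsab : ∀ x ∈ s, x ∈ a₀ ∪ b := by
    intro x hx
    by_cases hxa : x ∈ a₀
    · exact Finset.mem_union_left _ hxa
    · exact Finset.mem_union_right _ ((hb x).2 ⟨Finset.le_sup (f := id) hx, hs.2.1 x hx, hxa⟩)
  have habX : ∀ x ∈ a₀ ∪ b, x ∈ X := by
    intro x hx
    rcases Finset.mem_union.1 hx with hx | hx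
    · exact h2 x hx
    · exact ((hb x).1 hx).2.1
  refine hall b (fun x hx => ?_) D hD subset_rfl ?_
  · obtain ⟨_, hxX, hxa⟩ := (hb x).1 hx
    exact (h3 x hxX hxa).1
  · refine subset_trans ?_ hsO
    rintro X' ⟨g1, g2, g3⟩
    refine ⟨g1, fun x hx => g2 x (hsab x hx), ?_⟩
    intro x hx hxs
    refine ⟨Set.mem_univ _, ?_⟩
    intro y hy
    by_cases hxab : x ∈ a₀ ∪ b
    · exact (hs.2.2 x (habX x hxab) hxs).2 y hy
    · exact (g3 x hx hxab).2 y (hsab y hy)

/-- `y` extends the finite sequence `t`. -/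
def Ext (t : List ℕ) (y : ℕ → ℕ) : Prop := ∀ (i : ℕ) (h : i < t.length), y i = t[i]

/-- **Main Ramsey theorem.** Let `H` be a selective coideal whose complement is the range of a
continuous map on the Baire space. Then every member of `H` contains a member of `H` all of whose
infinite subsets are in `H`. -/
theorem Selective.main (hH : Selective H) (f : (ℕ → ℕ) → Set ℕ)
    (hcont : ∀ (y : ℕ → ℕ) (n : ℕ), ∃ k : ℕ, ∀ y' : ℕ → ℕ, (∀ i < k, y' i = y i) →
      (n ∈ f y' ↔ n ∈ f y))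
    (hrange : ∀ X : Set ℕ, X ∉ H ↔ ∃ y, f y = X) {C₀ : Set ℕ} (hC₀ : C₀ ∈ H) :
    ∃ C ∈ H, C ⊆ C₀ ∧ ∀ Y : Set ℕ, Y ⊆ C → Y.Infinite → Y ∈ H := by
  classical
  by_contra hcon
  have tall : ∀ C ∈ H, C ⊆ C₀ → ∃ Y : Set ℕ, Y ⊆ C ∧ Y.Infinite ∧ Y ∉ H := by
    intro C hC hCC
    by_contra h
    apply hcon
    refine ⟨C, hC, hCC, ?_⟩
    intro Y hY hYi
    by_contra hYH
    exact h ⟨Y, hY, hYi, hYH⟩
  let J : List ℕ → Set (Set ℕ) := fun t => {X | ∃ y, Ext t y ∧ f y = X}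
  let nd : ℕ → List ℕ := fun k => Denumerable.ofNat (List ℕ) k
  have hnd : ∀ t : List ℕ, nd (Encodable.encode t) = t := fun t => Denumerable.ofNat_encode t
  let Hit : Finset ℕ → List ℕ → Set ℕ → Prop := fun a t C =>
    ∀ C' ∈ H, C' ⊆ C → ∃ X ∈ Nb a C', X ∈ J t
  -- first diagonalisation: decide
  obtain ⟨D₁, hD₁, hD₁C, hdec⟩ := hH.diag_lemma hC₀
    (fun a k C => (∀ X ∈ Nb a C, X ∉ J (nd k)) ∨ Hit a (nd k) C)
    (by
      rintro a k C C' _ h (hmiss | hhit)
      · exact Or.inl fun X hX => hmiss X (Nb_mono h hX)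
      · right
        intro C'' hC'' hsub
        obtain ⟨X, hX, hXJ⟩ := hhit {x ∈ C'' | ∀ y ∈ a, y < x} (hH.above hC'' a)
          (fun x hx => h x (hsub hx.1) hx.2)
        exact ⟨X, Nb_mono (fun x hx _ => hx.1) hX, hXJ⟩)
    (by
      intro a k C hC _
      by_cases h : ∃ C' ∈ H, C' ⊆ C ∧ ∀ X ∈ Nb a C', X ∉ J (nd k)
      · obtain ⟨C', h1, h2, h3⟩ := h
        exact ⟨C', h1, h2, Or.inl h3⟩
      · refine ⟨C, hC, subset_rfl, Or.inr ?_⟩
        intro C' h1 h2
        by_contra h3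
        push Not at h3
        exact h ⟨C', h1, h2, h3⟩)
  -- the open sets
  let O : Finset ℕ → List ℕ → Set (Set ℕ) := fun a t =>
    {X | ∃ b : Finset ℕ, X ∈ Nb b Set.univ ∧ a.card < b.card ∧ (∀ x ∈ b, x ∈ D₁) ∧
      ∃ i : ℕ, Encodable.encode (t ++ [i]) ≤ b.sup id ∧ Hit b (t ++ [i]) D₁}
  have hOopen : ∀ a t, ∀ X ∈ O a t, X.Infinite → ∃ b, X ∈ Nb b Set.univ ∧ Nb b Set.univ ⊆ O a t := by
    rintro a t X ⟨b, h1, h2⟩ _
    exact ⟨b, h1, fun X' hX' => ⟨b, hX', h2⟩⟩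
  -- second diagonalisation
  obtain ⟨D₂, hD₂, hD₂D, hprop⟩ := hH.diag_lemma hD₁
    (fun a k C => (∀ x ∈ a, x ∈ D₁) → Hit a (nd k) D₁ → Nb a C ⊆ O a (nd k))
    (by
      intro a k C C' _ h hP h1 h2
      exact (Nb_mono h).trans (hP h1 h2))
    (by
      intro a k C hC hCD
      by_cases hh : (∀ x ∈ a, x ∈ D₁) ∧ Hit a (nd k) D₁
      · obtain ⟨haD, hhit⟩ := hh
        obtain ⟨C', hC', hC'C, hor⟩ := hH.galvin hC a (O a (nd k)) (hOopen _ _)
        refine ⟨C', hC', hC'C, fun _ _ => ?_⟩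
        rcases hor with h | h
        · exact h
        · exfalso
          obtain ⟨X, hX, y, hy, rfl⟩ := hhit C' hC' (hC'C.trans hCD)
          apply h _ hX
          obtain ⟨h1, h2, h3⟩ := hX
          set i := y (nd k).length with hi
          obtain ⟨x, hxX, hx⟩ := h1.exists_gt (max (a.sup id) (Encodable.encode (nd k ++ [i])))
          have hxa : ∀ z ∈ a, z < x := fun z hz =>
            (Finset.le_sup (f := id) hz).trans_lt ((le_max_left _ _).trans_lt hx)
          have hxn : x ∉ a := fun hxa' => lt_irrefl x (hxa x hxa')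
          let b : Finset ℕ := (Finset.range (x + 1)).filter (fun z => z ∈ f y)
          have hb : ∀ z, z ∈ b ↔ z ≤ x ∧ z ∈ f y := by
            intro z
            simp only [b, Finset.mem_filter, Finset.mem_range]
            rw [Nat.lt_succ_iff]
          have hab : a ⊆ b := fun z hz => (hb z).2 ⟨(hxa z hz).le, h2 z hz⟩
          have hxb : x ∈ b := (hb x).2 ⟨le_rfl, hxX⟩
          have hbD : ∀ z ∈ b, z ∈ D₁ := by
            intro z hz
            by_cases hza : z ∈ a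
            · exact haD z hza
            · exact hCD (hC'C (h3 z ((hb z).1 hz).2 hza).1)
          have hbi : ∀ z ∈ f y, z ∉ b → ∀ w ∈ b, w < z := by
            intro z hz hzb w hw
            have h4 : ¬ z ≤ x := fun h => hzb ((hb z).2 ⟨h, hz⟩)
            have h5 := ((hb w).1 hw).1
            omega
          have hsup : Encodable.encode (nd k ++ [i]) ≤ b.sup id :=
            ((le_max_right _ _).trans hx.le).trans (Finset.le_sup (f := id) hxb)
          refine ⟨b, ⟨h1, fun z hz => ((hb z).1 hz).2, fun z hz hzb =>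
            ⟨Set.mem_univ _, hbi z hz hzb⟩⟩, ?_, hbD, i, hsup, ?_⟩
          · apply Finset.card_lt_card
            refine ⟨hab, fun h => hxn (h hxb)⟩
          · have := hdec b hbD _ hsup
            rw [hnd] at this
            refine this.resolve_left ?_
            intro hmiss
            refine hmiss (f y) ⟨h1, fun z hz => ((hb z).1 hz).2, fun z hz hzb =>
              ⟨?_, hbi z hz hzb⟩⟩ ⟨y, ?_, rfl⟩
            · by_cases hza : z ∈ a
              · exact haD z hza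
              · exact hCD (hC'C (h3 z hz hza).1)
            · intro j hj
              rw [List.length_append, List.length_singleton] at hj
              rcases Nat.lt_succ_iff_lt_or_eq.1 hj with h | h
              · rw [List.getElem_append_left h]
                exact hy j h
              · subst h
                simp [hi]
      · exact ⟨C, hC, subset_rfl, fun h1 h2 => absurd ⟨h1, h2⟩ hh⟩)
  -- the branch
  let St : Type := {s : Finset ℕ × List ℕ // D₂ ∈ Nb s.1 Set.univ ∧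
    Encodable.encode s.2 ≤ s.1.sup id ∧ Hit s.1 s.2 D₁}
  have next : ∀ s : St, ∃ s' : St, s.1.1.card < s'.1.1.card ∧ ∃ i, s'.1.2 = s.1.2 ++ [i] := by
    rintro ⟨⟨a, t⟩, h1, h2, h3⟩
    have haD₂ : ∀ x ∈ a, x ∈ D₂ := h1.2.1
    have hp := hprop a haD₂ (Encodable.encode t) h2
    simp only [hnd] at hp
    have hmem : D₂ ∈ Nb a D₂ := ⟨h1.1, haD₂, fun x hx hxa => ⟨hx, (h1.2.2 x hx hxa).2⟩⟩
    obtain ⟨b, hb1, hb2, _, i, hb4, hb5⟩ := hp (fun x hx => hD₂D (haD₂ x hx)) h3 hmem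
    exact ⟨⟨⟨b, t ++ [i]⟩, hb1, hb4, hb5⟩, hb2, i, rfl⟩
  choose nx hnx1 hnx2 using next
  have h0 : D₂ ∈ Nb (∅ : Finset ℕ) Set.univ ∧
      Encodable.encode ([] : List ℕ) ≤ (∅ : Finset ℕ).sup id ∧ Hit ∅ [] D₁ := by
    refine ⟨⟨hH.inf hD₂, by simp, fun x _ _ => ⟨Set.mem_univ _, by simp⟩⟩, by simp, ?_⟩
    intro C' hC' hsub
    obtain ⟨Y, hY, hYi, hYH⟩ := tall C' hC' (hsub.trans hD₁C)
    obtain ⟨y, hy⟩ := (hrange Y).1 hYH
    exact ⟨Y, ⟨hYi, by simp, fun x hx _ => ⟨hY hx, by simp⟩⟩, y, fun i h => by simp at h, hy⟩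
  let s : ℕ → St := fun n => Nat.rec ⟨(∅, []), h0⟩ (fun _ s => nx s) n
  have hs1 : ∀ n, (s n).1.1.card < (s (n + 1)).1.1.card := fun n => hnx1 (s n)
  have hs2 : ∀ n, ∃ i, (s (n + 1)).1.2 = (s n).1.2 ++ [i] := fun n => hnx2 (s n)
  choose y hy using hs2
  have hlen : ∀ n, (s n).1.2.length = n := by
    intro n
    induction n with
    | zero => rfl
    | succ n ih => rw [hy, List.length_append, ih, List.length_singleton]
  have hget : ∀ n i (h : i < (s n).1.2.length), (s n).1.2[i] = y i := by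
    intro n
    induction n with
    | zero =>
      intro i h
      exact absurd (lt_of_lt_of_eq h (hlen 0)) (Nat.not_lt_zero _)
    | succ n ih =>
      intro i h
      have h' : i < n + 1 := lt_of_lt_of_eq h (hlen (n + 1))
      simp only [hy]
      rcases Nat.lt_succ_iff_lt_or_eq.1 h' with h'' | h''
      · rw [List.getElem_append_left (by rw [hlen]; exact h'')]
        exact ih i (by rw [hlen]; exact h'')
      · subst h''
        rw [List.getElem_append_right (by rw [hlen])]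
        simp
  have hcard : ∀ n, n ≤ (s n).1.1.card := by
    intro n
    induction n with
    | zero => exact Nat.zero_le _
    | succ n ih => exact Nat.succ_le_of_lt (ih.trans_lt (hs1 n))
  have hfin : f y = D₂ := by
    ext x
    obtain ⟨k, hk⟩ := hcont y x
    let n := max k (x + 2)
    obtain ⟨hn1, hn2, hn3⟩ := (s n).2
    obtain ⟨X, hX, y', hy', rfl⟩ := hn3 D₁ hD₁ subset_rfl
    have hyy : ∀ i < k, y' i = y i := by
      intro i hi
      have hin : i < (s n).1.2.length := by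
        rw [hlen]
        exact hi.trans_le (le_max_left _ _)
      rw [hy' i hin, hget]
    rw [← hk y' hyy]
    -- an element of the approximation above `x`
    obtain ⟨z, hz, hxz⟩ : ∃ z ∈ (s n).1.1, x < z := by
      by_contra hcon2
      push Not at hcon2
      have hsub : (s n).1.1 ⊆ Finset.range (x + 1) := fun z hz =>
        Finset.mem_range.2 (Nat.lt_succ_of_le (hcon2 z hz))
      have h1 := Finset.card_le_card hsub
      rw [Finset.card_range] at h1
      have h2 := hcard n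
      have h3 : x + 2 ≤ n := le_max_right _ _
      omega
    constructor
    · intro hx
      by_cases hxb : x ∈ (s n).1.1
      · exact hn1.2.1 x hxb
      · exact absurd ((hX.2.2 x hx hxb).2 z hz) (by omega)
    · intro hx
      by_cases hxb : x ∈ (s n).1.1
      · exact hX.2.1 x hxb
      · exact absurd ((hn1.2.2 x hx hxb).2 z hz) (by omega)
  exact (hrange D₂).2 ⟨y, hfin⟩ hD₂

end Pool.Agent.Helper60.ZMad
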