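import Pool.Agent.Helper60_ZMad.Cover
import Pool.Agent.Helper60_ZMad.Ramsey

/-!
# The coideal attached to a `Z₀`-MAD family is selective
-/

set_option autoImplicit false

namespace Pool.Agent.Helper60.ZMad

open Filter Topology

variable {𝒜 : Set (Set ℕ)}

/-- The sets of blocks on which finite unions of members leave at least `c` uncovered. -/
def HH (𝒜 : Set (Set ℕ)) (c : ℝ) : Set (Set ℕ) :=
  {C | ∀ F : Set (Set ℕ), F.Finite → F ⊆ 𝒜 → ∀ q < c, {m ∈ C | q < mu m (⋃₀ F)ᶜ}.Infinite}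

theorem sUnion_compl_anti {F F' : Set (Set ℕ)} (h : F ⊆ F') (m : ℕ) :
    mu m (⋃₀ F')ᶜ ≤ mu m (⋃₀ F)ᶜ :=
  mu_mono m fun _ hn _ _ => fun hx => hn (Set.sUnion_subset_sUnion h hx)

/-- The step of the construction in the proof of selectivity. -/
theorem step_cover (h𝒜 : IsZ0Mad 𝒜) {c : ℝ} {C : ℕ → Set ℕ} (hC : ∀ n, C n ∈ HH 𝒜 c)
    (hanti : ∀ n, C (n + 1) ⊆ C n) {F : Set (Set ℕ)} (hF : F.Finite) (hF𝒜 : F ⊆ 𝒜) {η : ℝ}
    (hη : 0 < η) :
    ∃ (E : Set ℕ) (V : Set (Set ℕ)), (∀ n, (E ∩ C n).Infinite) ∧ V.Finite ∧ V ⊆ 𝒜 ∧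
      (∀ A ∈ V, A ∉ F) ∧ ∀ m ∈ E, c - η < mu m (⋃₀ V) := by
  have hanti' : Antitone C := antitone_nat_of_succ_le hanti
  have hfreq : ∀ n, ∃ᶠ k in atTop, k ∈ C n ∧ c - η / 2 < mu k (⋃₀ F)ᶜ := by
    intro n
    rw [Nat.frequently_atTop_iff_infinite]
    exact hC n F hF hF𝒜 (c - η / 2) (by linarith)
  obtain ⟨e, he, heP⟩ := extraction_forall_of_frequently hfreq
  obtain ⟨E', hE'e, hE', V, hV, hV𝒜, hVc⟩ := exists_cover h𝒜
    (Set.infinite_range_of_injective he.injective) (half_pos hη)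
  refine ⟨E', V \ F, ?_, hV.subset Set.sdiff_subset, Set.sdiff_subset.trans hV𝒜,
    fun A hA => hA.2, ?_⟩
  · intro n
    have hfin : (e '' Set.Iio n).Finite := (Set.finite_Iio n).image e
    refine (hE'.sdiff hfin).mono ?_
    rintro m ⟨hm, hm2⟩
    obtain ⟨j, rfl⟩ := hE'e hm
    refine ⟨hm, ?_⟩
    have hj : n ≤ j := by
      by_contra h
      exact hm2 ⟨j, not_le.1 h, rfl⟩
    exact hanti' hj (heP j).1
  · intro m hm
    obtain ⟨j, rfl⟩ := hE'e hm
    have h1 := (heP j).2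
    have h2 := hVc _ hm
    rw [mu_compl] at h1
    have h3 : mu (e j) (⋃₀ V) ≤ mu (e j) (⋃₀ (V \ F)) + mu (e j) (⋃₀ F) := by
      refine le_trans (mu_mono _ ?_) (mu_union_le _ _ _)
      rintro x ⟨A, hA, hx⟩ _ _
      by_cases hAF : A ∈ F
      · exact Or.inr ⟨A, hAF, hx⟩
      · exact Or.inl ⟨A, ⟨hA, hAF⟩, hx⟩
    linarith

theorem selective_HH (h𝒜 : IsZ0Mad 𝒜) {c : ℝ} (hc : 0 < c) : Selective (HH 𝒜 c) where
  up := by
    intro C D hC hCD F hF hF𝒜 q hq
    exact (hC F hF hF𝒜 q hq).mono fun m hm => ⟨hCD hm.1, hm.2⟩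
  split := by
    intro C D hCD
    by_contra hcon
    rw [not_or] at hcon
    obtain ⟨h1, h2⟩ := hcon
    simp only [HH, Set.mem_ofPred_eq, not_forall, Set.not_infinite] at h1 h2
    obtain ⟨F, hF, hF𝒜, q, hq, hfin⟩ := h1
    obtain ⟨F', hF', hF'𝒜, q', hq', hfin'⟩ := h2
    apply hCD (F ∪ F') (hF.union hF') (Set.union_subset hF𝒜 hF'𝒜) (max q q') (max_lt hq hq')
    apply (hfin.union hfin').subset
    rintro m ⟨hm | hm, hm2⟩
    · left
      exact ⟨hm, (le_max_left _ _).trans_lt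
        (hm2.trans_le (sUnion_compl_anti Set.subset_union_left m))⟩
    · right
      exact ⟨hm, (le_max_right _ _).trans_lt
        (hm2.trans_le (sUnion_compl_anti Set.subset_union_right m))⟩
  inf := by
    intro C hC
    exact (hC ∅ Set.finite_empty (Set.empty_subset _) 0 hc).mono fun m hm => hm.1
  diag := by
    intro C hC hanti
    have hanti' : Antitone C := antitone_nat_of_succ_le hanti
    -- the sequence of finite families
    let St : Type := {F : Set (Set ℕ) // F.Finite ∧ F ⊆ 𝒜}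
    have step : ∀ (k : ℕ) (F : St), ∃ (E : Set ℕ) (V : Set (Set ℕ)), (∀ n, (E ∩ C n).Infinite) ∧
        V.Finite ∧ V ⊆ 𝒜 ∧ (∀ A ∈ V, A ∉ F.1) ∧ ∀ m ∈ E, c - 1 / ((k : ℝ) + 1) < mu m (⋃₀ V) :=
      fun k F => step_cover h𝒜 hC hanti F.2.1 F.2.2 (by positivity)
    choose e v h1 h2 h3 h4 h5 using step
    let s : ℕ → St := fun n => Nat.rec ⟨∅, Set.finite_empty, Set.empty_subset _⟩
      (fun k F => ⟨F.1 ∪ v k F, F.2.1.union (h2 k F), Set.union_subset F.2.2 (h3 k F)⟩) n
    have hs : ∀ k, (s (k + 1)).1 = (s k).1 ∪ v k (s k) := fun k => rfl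
    have hs_mono : Monotone fun k => (s k).1 :=
      monotone_nat_of_le_succ fun k => by rw [hs]; exact Set.subset_union_left
    let E : ℕ → Set ℕ := fun k => e k (s k)
    let V : ℕ → Set (Set ℕ) := fun k => v k (s k)
    have hE : ∀ k n, (E k ∩ C n).Infinite := fun k n => h1 k (s k) n
    have hV : ∀ k, (V k).Finite := fun k => h2 k (s k)
    have hV𝒜 : ∀ k, V k ⊆ 𝒜 := fun k => h3 k (s k)
    have hEV : ∀ k, ∀ m ∈ E k, c - 1 / ((k : ℝ) + 1) < mu m (⋃₀ (V k)) := fun k => h5 k (s k)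
    have hVdisj : ∀ i j, i < j → ∀ A ∈ V j, A ∉ V i := by
      intro i j hij A hA hAi
      apply h4 j (s j) A hA
      have : A ∈ (s (i + 1)).1 := by
        rw [hs]
        exact Or.inr hAi
      exact hs_mono hij this
    -- the diagonal set
    have hnext : ∀ j x : ℕ, ∃ y, x < y ∧ y ∈ E (Nat.unpair j).1 ∩ C x := by
      intro j x
      obtain ⟨y, hy, hxy⟩ := (hE (Nat.unpair j).1 x).exists_gt x
      exact ⟨y, hxy, hy⟩
    choose nx hnx1 hnx2 using hnext
    let d : ℕ → ℕ := fun n => Nat.rec (nx 0 0) (fun j x => nx (j + 1) x) n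
    have hd_succ : ∀ j, d (j + 1) = nx (j + 1) (d j) := fun j => rfl
    have hd_lt : ∀ j, d j < d (j + 1) := fun j => hnx1 (j + 1) (d j)
    have hd_mono : StrictMono d := strictMono_nat_of_lt_succ hd_lt
    have hd_mem : ∀ j, d j ∈ E (Nat.unpair j).1 := by
      intro j
      cases j with
      | zero => exact (hnx2 0 0).1
      | succ j => exact (hnx2 (j + 1) (d j)).1
    have hd_C : ∀ j, d (j + 1) ∈ C (d j) := fun j => (hnx2 (j + 1) (d j)).2
    refine ⟨Set.range d, ?_, ?_, ?_⟩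
    · intro F hF hF𝒜 q hq
      -- choose `k` large with `V k` disjoint from `F`
      have hbad : {k | ∃ A ∈ V k, A ∈ F}.Finite := by
        have hsub : {k | ∃ A ∈ V k, A ∈ F} = ⋃ A ∈ F, {k | A ∈ V k} := by
          ext k
          simp only [Set.mem_ofPred_eq, Set.mem_iUnion, exists_prop]
          constructor
          · rintro ⟨A, h1, h2⟩
            exact ⟨A, h2, h1⟩
          · rintro ⟨A, h1, h2⟩
            exact ⟨A, h2, h1⟩
        rw [hsub]
        apply hF.biUnion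
        intro A _
        apply Set.Subsingleton.finite
        intro i hi j hj
        rcases lt_trichotomy i j with h | h | h
        · exact absurd hi (hVdisj i j h A hj)
        · exact h
        · exact absurd hj (hVdisj j i h A hi)
      obtain ⟨N, hN⟩ := exists_nat_one_div_lt (show (0 : ℝ) < (c - q) / 2 by linarith)
      obtain ⟨k, hk1, hk2⟩ := (hbad.infinite_compl).exists_gt N
      have hkd : ∀ A ∈ V k, A ∉ F := fun A hA hAF => hk1 ⟨A, hA, hAF⟩
      have hz := sUnion_inter_sUnion_mem_Z0 h𝒜 (hV k) (hV𝒜 k) hF hF𝒜 hkd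
      rw [mem_Z0_iff] at hz
      have hev := hz.eventually (gt_mem_nhds (show (0 : ℝ) < (c - q) / 2 by linarith))
      rw [eventually_atTop] at hev
      obtain ⟨M, hM⟩ := hev
      -- the infinitely many indices
      have hinf : ((fun i => d (Nat.pair k i)) '' Set.Ici M).Infinite := by
        apply Set.Infinite.image
        · intro i _ j _ hij
          have := hd_mono.injective hij
          exact (Nat.pair_eq_pair.1 this).2
        · exact Set.Ici_infinite M
      refine hinf.mono ?_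
      rintro _ ⟨i, hi, rfl⟩
      refine ⟨⟨_, rfl⟩, ?_⟩
      simp only
      have h6 := hd_mem (Nat.pair k i)
      rw [Nat.unpair_pair] at h6
      have h7 := hEV k _ h6
      have h8 := hM (d (Nat.pair k i)) (by
        have h9 : i ≤ Nat.pair k i := Nat.right_le_pair k i
        have h10 := hd_mono.id_le (Nat.pair k i)
        simp only [id] at h10
        have h11 : M ≤ i := hi
        omega)
      have h9 : mu (d (Nat.pair k i)) (⋃₀ (V k)) ≤
          mu (d (Nat.pair k i)) (⋃₀ F)ᶜ + mu (d (Nat.pair k i)) (⋃₀ (V k) ∩ ⋃₀ F) := by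
        refine le_trans (mu_mono _ ?_) (mu_union_le _ _ _)
        intro x hx _ _
        by_cases hxF : x ∈ ⋃₀ F
        · exact Or.inr ⟨hx, hxF⟩
        · exact Or.inl hxF
      have h10 : 1 / ((k : ℝ) + 1) ≤ 1 / ((N : ℝ) + 1) := by
        apply one_div_le_one_div_of_le (by positivity)
        have : (N : ℝ) < k := by exact_mod_cast hk2
        linarith
      linarith
    · rintro _ ⟨j, rfl⟩
      cases j with
      | zero => exact (hnx2 0 0).2
      | succ j => exact hanti' (Nat.zero_le _) (hd_C j)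
    · rintro _ ⟨i, rfl⟩ _ ⟨j, rfl⟩ hij
      have hij' : i < j := hd_mono.lt_iff_lt.1 hij
      cases j with
      | zero => exact absurd hij' (Nat.not_lt_zero _)
      | succ j =>
        have : d i ≤ d j := hd_mono.monotone (Nat.lt_succ_iff.1 hij')
        exact hanti' this (hd_C j)

end Pool.Agent.Helper60.ZMad
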