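import Pool.Agent.Helper60_ZMad.Blocks

/-!
# Covering lemma: on some infinite set of blocks, finitely many members cover almost everything
-/

set_option autoImplicit false

namespace Pool.Agent.Helper60.ZMad

open Filter Topology

variable {𝒜 : Set (Set ℕ)}

theorem empty_mem_Z0 : (∅ : Set ℕ) ∈ Z0 := by
  rw [mem_Z0_iff]
  simp [mu_empty]

theorem Z0_mono {A B : Set ℕ} (h : A ⊆ B) (hB : B ∈ Z0) : A ∈ Z0 := by
  rw [mem_Z0_iff] at *
  exact squeeze_zero (fun m => mu_nonneg m A) (fun m => mu_mono m fun n hn _ _ => h hn) hB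

theorem Z0_union {A B : Set ℕ} (hA : A ∈ Z0) (hB : B ∈ Z0) : A ∪ B ∈ Z0 := by
  rw [mem_Z0_iff] at *
  have := hA.add hB
  rw [add_zero] at this
  exact squeeze_zero (fun m => mu_nonneg m _) (fun m => mu_union_le m A B) this

/-- A member has intersection in `Z₀` with any finite union of other members. -/
theorem inter_sUnion_mem_Z0 (h𝒜 : IsZ0Mad 𝒜) {A : Set ℕ} (hA : A ∈ 𝒜) {F : Set (Set ℕ)}
    (hF : F.Finite) (hF𝒜 : F ⊆ 𝒜) (hAF : A ∉ F) : A ∩ ⋃₀ F ∈ Z0 := by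
  induction F, hF using Set.Finite.induction_on with
  | empty => simpa using empty_mem_Z0
  | @insert B F _ _ ih =>
    rw [Set.sUnion_insert, Set.inter_union_distrib_left]
    apply Z0_union
    · apply h𝒜.2.1 A hA B (hF𝒜 (Set.mem_insert _ _))
      rintro rfl
      exact hAF (Set.mem_insert _ _)
    · exact ih (fun C hC => hF𝒜 (Set.mem_insert_of_mem _ hC))
        (fun h => hAF (Set.mem_insert_of_mem _ h))

/-- Two disjoint finite sets of members have unions with intersection in `Z₀`. -/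
theorem sUnion_inter_sUnion_mem_Z0 (h𝒜 : IsZ0Mad 𝒜) {V F : Set (Set ℕ)} (hV : V.Finite)
    (hV𝒜 : V ⊆ 𝒜) (hF : F.Finite) (hF𝒜 : F ⊆ 𝒜) (hVF : ∀ A ∈ V, A ∉ F) :
    ⋃₀ V ∩ ⋃₀ F ∈ Z0 := by
  induction V, hV using Set.Finite.induction_on with
  | empty => simpa using empty_mem_Z0
  | @insert B V _ _ ih =>
    rw [Set.sUnion_insert, Set.union_inter_distrib_right]
    apply Z0_union
    · exact inter_sUnion_mem_Z0 h𝒜 (hV𝒜 (Set.mem_insert _ _)) hF hF𝒜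
        (hVF B (Set.mem_insert _ _))
    · exact ih (fun C hC => hV𝒜 (Set.mem_insert_of_mem _ hC))
        (fun A hA => hVF A (Set.mem_insert_of_mem _ hA))

/-- The union of the sets `Y n` restricted to the blocks with index `c n`. -/
def asm (c : ℕ → ℕ) (Y : ℕ → Set ℕ) : Set ℕ :=
  {x | ∃ n, 2 ^ c n ≤ x ∧ x < 2 ^ (c n + 1) ∧ x ∈ Y n}

theorem block_unique {x i j : ℕ} (h1 : 2 ^ i ≤ x) (h2 : x < 2 ^ (i + 1)) (h3 : 2 ^ j ≤ x)
    (h4 : x < 2 ^ (j + 1)) : i = j := by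
  have h5 : i < j + 1 := (Nat.pow_lt_pow_iff_right (by norm_num)).1 (h1.trans_lt h4)
  have h6 : j < i + 1 := (Nat.pow_lt_pow_iff_right (by norm_num)).1 (h3.trans_lt h2)
  omega

theorem mu_asm {c : ℕ → ℕ} (hc : StrictMono c) (Y : ℕ → Set ℕ) (Z : Set ℕ) (n : ℕ) :
    mu (c n) (asm c Y ∩ Z) = mu (c n) (Y n ∩ Z) := by
  apply mu_congr
  intro x h1 h2
  constructor
  · rintro ⟨⟨k, h3, h4, h5⟩, h6⟩
    have : n = k := hc.injective (block_unique h1 h2 h3 h4)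
    subst this
    exact ⟨h5, h6⟩
  · rintro ⟨h5, h6⟩
    exact ⟨⟨n, h1, h2, h5⟩, h6⟩

theorem mu_asm_of_notMem {c : ℕ → ℕ} (Y : ℕ → Set ℕ) (Z : Set ℕ) {m : ℕ}
    (hm : ∀ n, c n ≠ m) : mu m (asm c Y ∩ Z) = 0 := by
  rw [← mu_empty m]
  apply mu_congr
  intro x h1 h2
  constructor
  · rintro ⟨⟨k, h3, h4, _⟩, _⟩
    exact absurd (block_unique h3 h4 h1 h2) (hm k)
  · exact fun h => absurd h (Set.notMem_empty x)

/-- **Covering lemma.** -/
theorem exists_cover (h𝒜 : IsZ0Mad 𝒜) {E : Set ℕ} (hE : E.Infinite) {η : ℝ} (hη : 0 < η) :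
    ∃ E' ⊆ E, E'.Infinite ∧ ∃ V : Set (Set ℕ), V.Finite ∧ V ⊆ 𝒜 ∧
      ∀ m ∈ E', 1 - η < mu m (⋃₀ V) := by
  by_contra hcon
  have hsmall : ∀ V : Set (Set ℕ), V.Finite → V ⊆ 𝒜 → {m ∈ E | 1 - η < mu m (⋃₀ V)}.Finite := by
    intro V hV hV𝒜
    by_contra h
    exact hcon ⟨{m ∈ E | 1 - η < mu m (⋃₀ V)}, fun m hm => hm.1, h, V, hV, hV𝒜, fun m hm => hm.2⟩
  let St : Type := {p : Set ℕ × Set (Set ℕ) // p.1 ⊆ E ∧ p.1.Infinite ∧ p.2.Finite ∧ p.2 ⊆ 𝒜}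
  let Q : St → Set ℝ := fun s => {q : ℝ | ∃ C' : Set ℕ, C' ⊆ s.1.1 ∧ C'.Infinite ∧
    ∃ F' : Set (Set ℕ), s.1.2 ⊆ F' ∧ F'.Finite ∧ F' ⊆ 𝒜 ∧ ∀ m ∈ C', q ≤ mu m (⋃₀ F')}
  have hQne : ∀ s, (Q s).Nonempty := fun s =>
    ⟨0, s.1.1, subset_rfl, s.2.2.1, s.1.2, subset_rfl, s.2.2.2.1, s.2.2.2.2,
      fun m _ => mu_nonneg m _⟩
  have hQbdd : ∀ s, BddAbove (Q s) := by
    intro s
    refine ⟨1, ?_⟩
    rintro q ⟨C', _, hC', F', _, _, _, h⟩
    obtain ⟨m, hm⟩ := hC'.nonempty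
    exact (h m hm).trans (mu_le_one m _)
  have step : ∀ (n : ℕ) (s : St), ∃ s' : St, s'.1.1 ⊆ s.1.1 ∧ s.1.2 ⊆ s'.1.2 ∧
      ∀ m ∈ s'.1.1, sSup (Q s) - 1 / ((n : ℝ) + 1) ≤ mu m (⋃₀ s'.1.2) := by
    intro n s
    have hlt : sSup (Q s) - 1 / ((n : ℝ) + 1) < sSup (Q s) := by
      have : (0 : ℝ) < 1 / ((n : ℝ) + 1) := by positivity
      linarith
    obtain ⟨q, ⟨C', h1, h2, F', h3, h4, h5, h6⟩, hq⟩ := exists_lt_of_lt_csSup (hQne s) hlt
    exact ⟨⟨(C', F'), h1.trans s.2.1, h2, h4, h5⟩, h1, h3, fun m hm => hq.le.trans (h6 m hm)⟩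
  choose nx hnx1 hnx2 hnx3 using step
  let s : ℕ → St := fun n => Nat.rec ⟨(E, ∅), subset_rfl, hE, Set.finite_empty,
    Set.empty_subset _⟩ (fun n s => nx n s) n
  have hs1 : ∀ n, (s (n + 1)).1.1 ⊆ (s n).1.1 := fun n => hnx1 n (s n)
  have hs2 : ∀ n, (s n).1.2 ⊆ (s (n + 1)).1.2 := fun n => hnx2 n (s n)
  have hs3 : ∀ n, ∀ m ∈ (s (n + 1)).1.1,
      sSup (Q (s n)) - 1 / ((n : ℝ) + 1) ≤ mu m (⋃₀ (s (n + 1)).1.2) := fun n => hnx3 n (s n)
  have hC_anti : Antitone fun n => (s n).1.1 := antitone_nat_of_succ_le hs1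
  have hF_mono : Monotone fun n => (s n).1.2 := monotone_nat_of_le_succ hs2
  -- choose the blocks
  have hfreq : ∀ n, ∃ᶠ k in atTop, k ∈ (s n).1.1 ∧ mu k (⋃₀ (s n).1.2) ≤ 1 - η := by
    intro n
    rw [Nat.frequently_atTop_iff_infinite]
    have h1 := (s n).2.2.1
    have h2 := hsmall (s n).1.2 (s n).2.2.2.1 (s n).2.2.2.2
    refine (h1.sdiff h2).mono ?_
    rintro k ⟨hk1, hk2⟩
    refine ⟨hk1, ?_⟩
    by_contra hk3
    push Not at hk3
    exact hk2 ⟨(s n).2.1 hk1, hk3⟩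
  obtain ⟨c, hc, hcP⟩ := extraction_forall_of_frequently hfreq
  let X : Set ℕ := asm c fun n => (⋃₀ (s n).1.2)ᶜ
  have hX : ∀ (Z : Set ℕ) n, mu (c n) (X ∩ Z) = mu (c n) ((⋃₀ (s n).1.2)ᶜ ∩ Z) :=
    fun Z n => mu_asm hc _ Z n
  have hXpos : X ∉ Z0 := by
    intro h
    rw [mem_Z0_iff] at h
    have h1 := h.comp hc.tendsto_atTop
    have h2 : ∀ n, η ≤ mu (c n) X := by
      intro n
      have h3 := hX Set.univ n
      rw [Set.inter_univ, Set.inter_univ, mu_compl] at h3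
      rw [h3]
      linarith [(hcP n).2]
    have h3 := ge_of_tendsto' h1 h2
    linarith
  obtain ⟨A, hA, hXA⟩ := h𝒜.2.2 X hXpos
  apply hXA
  rw [mem_Z0_iff]
  by_cases hcase : ∃ k, A ∈ (s k).1.2
  · obtain ⟨k, hk⟩ := hcase
    refine tendsto_const_nhds.congr' ?_
    filter_upwards [eventually_ge_atTop (c k)] with m hm
    by_cases hm2 : ∃ n, c n = m
    · obtain ⟨n, rfl⟩ := hm2
      have hkn : k ≤ n := hc.le_iff_le.1 hm
      rw [hX, ← mu_empty (c n)]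
      congr 1
      ext x
      simp only [Set.mem_empty_iff_false, Set.mem_inter_iff, Set.mem_compl_iff, false_iff, not_and]
      intro hx hxA
      exact hx ⟨A, hF_mono hkn hk, hxA⟩
    · push Not at hm2
      exact (mu_asm_of_notMem _ _ hm2).symm
  · push Not at hcase
    by_contra hnot
    -- frequently large
    have hfr : ∃ δ > 0, ∃ᶠ n in atTop, δ ≤ mu (c n) A := by
      by_contra hno
      push Not at hno
      apply hnot
      rw [Metric.tendsto_atTop]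
      intro ε hε
      have h1 := hno ε hε
      rw [eventually_atTop] at h1
      obtain ⟨N, hN⟩ := h1
      refine ⟨c N, fun m hm => ?_⟩
      rw [Real.dist_eq, sub_zero, abs_of_nonneg (mu_nonneg _ _)]
      by_cases hm2 : ∃ n, c n = m
      · obtain ⟨n, rfl⟩ := hm2
        have h2 := hN n (hc.le_iff_le.1 hm)
        refine (mu_mono (c n) ?_).trans_lt h2
        exact fun x hx _ _ => hx.2
      · push Not at hm2
        rw [mu_asm_of_notMem _ _ hm2]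
        exact hε
    obtain ⟨δ, hδ, hfr⟩ := hfr
    -- contradiction with near optimality
    have key : ∀ n : ℕ, δ / 2 ≤ 1 / ((n : ℝ) + 1) := by
      intro n
      have hAF := inter_sUnion_mem_Z0 h𝒜 hA (s (n + 1)).2.2.2.1 (s (n + 1)).2.2.2.2 (hcase (n + 1))
      rw [mem_Z0_iff] at hAF
      have hAF' := (hAF.comp hc.tendsto_atTop).eventually (gt_mem_nhds (half_pos hδ))
      have hfr2 : ∃ᶠ j in atTop, δ ≤ mu (c j) A ∧ (mu (c j) (A ∩ ⋃₀ (s (n + 1)).1.2) < δ / 2 ∧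
          n + 1 ≤ j) := hfr.and_eventually (hAF'.and (eventually_ge_atTop (n + 1)))
      rw [Nat.frequently_atTop_iff_infinite] at hfr2
      have hmem : sSup (Q (s n)) - 1 / ((n : ℝ) + 1) + δ / 2 ∈ Q (s n) := by
        refine ⟨c '' {j | δ ≤ mu (c j) A ∧ (mu (c j) (A ∩ ⋃₀ (s (n + 1)).1.2) < δ / 2 ∧
          n + 1 ≤ j)}, ?_, hfr2.image hc.injective.injOn, insert A (s (n + 1)).1.2, ?_, ?_, ?_, ?_⟩
        · rintro _ ⟨j, ⟨_, _, hj⟩, rfl⟩
          exact hC_anti (by omega : n ≤ j) (hcP j).1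
        · exact (hs2 n).trans (Set.subset_insert _ _)
        · exact (s (n + 1)).2.2.2.1.insert A
        · exact Set.insert_subset hA (s (n + 1)).2.2.2.2
        · rintro _ ⟨j, ⟨hj1, hj2, hj3⟩, rfl⟩
          rw [Set.sUnion_insert]
          have h1 := mu_union_add_inter (c j) A (⋃₀ (s (n + 1)).1.2)
          have h2 := hs3 n (c j) (hC_anti hj3 (hcP j).1)
          linarith
      have := le_csSup (hQbdd (s n)) hmem
      linarith
    obtain ⟨n, hn⟩ := exists_nat_one_div_lt (half_pos hδ)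
    exact absurd (key n) (not_le.2 hn)

end Pool.Agent.Helper60.ZMad
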