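import Mathlib

/-!
# Maximal almost disjoint families for the density zero ideal
-/

set_option autoImplicit false

namespace Pool.Agent.Helper60.ZMad

/-- The density zero ideal `Z₀ = {A ⊆ ℕ : |A ∩ {0, …, n - 1}| / n → 0}`. -/
def Z0 : Set (Set ℕ) :=
  {A | Filter.Tendsto (fun n : ℕ => ((A ∩ Set.Iio n).ncard : ℝ) / (n : ℝ)) Filter.atTop (nhds 0)}

/-- `𝒜` is a `Z₀`-MAD family: its members are `Z₀`-positive, distinct members have intersection in
`Z₀`, and every `Z₀`-positive set has `Z₀`-positive intersection with some member. -/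
def IsZ0Mad (𝒜 : Set (Set ℕ)) : Prop :=
  (∀ A ∈ 𝒜, A ∉ Z0) ∧ (∀ A ∈ 𝒜, ∀ B ∈ 𝒜, A ≠ B → A ∩ B ∈ Z0) ∧
    ∀ X : Set ℕ, X ∉ Z0 → ∃ A ∈ 𝒜, X ∩ A ∉ Z0

/-- A family of subsets of `ℕ` is analytic if it is an analytic subset of the Cantor space
`ℕ → Bool`, a set being identified with its characteristic function. -/
def IsAnalyticFamily (𝒜 : Set (Set ℕ)) : Prop :=
  MeasureTheory.AnalyticSet {x : ℕ → Bool | {n : ℕ | x n = true} ∈ 𝒜}

end Pool.Agent.Helper60.ZMad
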